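import Pool.Agent.Y80.KM.Free

set_option autoImplicit false

open scoped BigOperators

/-! Cohn's theorem on three generators: symmetric elements of the free associative algebra are
Jordan polynomials. -/

namespace Pool.Agent.Y417.KM

open Pool.Agent.Y80.KM

/-- the free associative algebra -/
abbrev FA (k : Type*) [Field k] : Type _ := MonoidAlgebra k (FreeMonoid (Fin 3))

/-- the free associative algebra with the product `x y + y x` -/
def JA (k : Type*) [Field k] : Type _ := MonoidAlgebra k (FreeMonoid (Fin 3))

variable {k : Type*} [Field k]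

noncomputable instance : AddCommGroup (JA k) := inferInstanceAs (AddCommGroup (FA k))
noncomputable instance : Module k (JA k) := inferInstanceAs (Module k (FA k))

/-- the underlying element -/
def un (x : JA k) : FA k := x

/-- the converse -/
def mkJ (x : FA k) : JA k := x

noncomputable instance : NonUnitalNonAssocRing (JA k) :=
  { (inferInstance : AddCommGroup (JA k)) with
    mul := fun x y => mkJ (un x * un y + un y * un x)
    left_distrib := fun x y z => by
      show (un x * (un y + un z) + (un y + un z) * un x : FA k) =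
        (un x * un y + un y * un x) + (un x * un z + un z * un x)
      rw [mul_add, add_mul]
      abel
    right_distrib := fun x y z => by
      show ((un x + un y) * un z + un z * (un x + un y) : FA k) =
        (un x * un z + un z * un x) + (un y * un z + un z * un y)
      rw [mul_add, add_mul]
      abel
    zero_mul := fun x => by
      show ((0 : FA k) * un x + un x * 0 : FA k) = 0
      simp
    mul_zero := fun x => by
      show (un x * (0 : FA k) + 0 * un x : FA k) = 0
      simp }

theorem un_mul (x y : JA k) : un (x * y) = un x * un y + un y * un x := rfl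

instance : IsScalarTower k (JA k) (JA k) :=
  ⟨fun c x y => by
    show ((c • un x) * un y + un y * (c • un x) : FA k) = c • (un x * un y + un y * un x)
    rw [smul_mul_assoc, mul_smul_comm, smul_add]⟩

instance : SMulCommClass k (JA k) (JA k) :=
  ⟨fun c x y => by
    show (c • (un x * un y + un y * un x) : FA k) = (un x * (c • un y) + (c • un y) * un x)
    rw [smul_mul_assoc, mul_smul_comm, smul_add]⟩

/-- the map from the free nonassociative algebra -/
noncomputable def toJ : NF k 3 →ₙₐ[k] JA k :=
  FreeNonUnitalNonAssocAlgebra.lift k fun i => mkJ (MonoidAlgebra.single (FreeMonoid.of i) 1)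

theorem ja_comm (x y : JA k) : x * y = y * x := by
  show (un x * un y + un y * un x : FA k) = un y * un x + un x * un y
  abel

theorem ja_jord (a b : JA k) : ((a * a) * b) * a = (a * a) * (b * a) := by
  show un (((a * a) * b) * a) = un ((a * a) * (b * a))
  simp only [un_mul]
  generalize un a = x
  generalize un b = y
  noncomm_ring

theorem ideal_le : idealOf (jordRel k 3) ≤
    LinearMap.ker ((toJ : NF k 3 →ₙₐ[k] JA k) : NF k 3 →ₗ[k] JA k) := by
  apply idealOf_le
  · rintro x ⟨a, b, h | h⟩
    · rw [SetLike.mem_coe, LinearMap.mem_ker, h]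
      change toJ (a * b - b * a) = 0
      rw [map_sub, map_mul, map_mul, ja_comm, sub_self]
    · rw [SetLike.mem_coe, LinearMap.mem_ker, h]
      change toJ (((a * a) * b) * a - (a * a) * (b * a)) = 0
      simp only [map_sub, map_mul]
      rw [ja_jord, sub_self]
  · intro a x hx
    rw [LinearMap.mem_ker] at hx
    have hx' : toJ x = 0 := hx
    constructor <;> rw [LinearMap.mem_ker]
    · change toJ (a * x) = 0
      rw [map_mul, hx', mul_zero]
    · change toJ (x * a) = 0
      rw [map_mul, hx', zero_mul]

/-- the induced map from the free Jordan algebra to the free associative algebra -/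
noncomputable def jm : FreeJord k 3 →ₗ[k] FA k :=
  (idealOf (jordRel k 3)).liftQ _ ideal_le

/-- the value of a nonassociative word -/
noncomputable def mg : FreeMagma (Fin 3) → FA k
  | .of i => MonoidAlgebra.single (FreeMonoid.of i) 1
  | .mul x y => mg x * mg y + mg y * mg x

theorem toJ_single (w : FreeMagma (Fin 3)) :
    un (toJ (MonoidAlgebra.single w 1 : NF k 3)) = mg w := by
  induction w with
  | ih1 i =>
    exact congrArg un (FreeNonUnitalNonAssocAlgebra.lift_of_apply (A := JA k) k
      (fun i => mkJ (MonoidAlgebra.single (FreeMonoid.of i) 1)) i)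
  | ih2 x y hx hy =>
    have : (MonoidAlgebra.single (x * y) 1 : NF k 3) =
        MonoidAlgebra.single x 1 * MonoidAlgebra.single y 1 := by
      rw [MonoidAlgebra.single_mul_single, one_mul]
    rw [this, map_mul, un_mul, hx, hy]
    rfl

theorem jm_single (w : FreeMagma (Fin 3)) :
    jm (qmk (jordRel k 3) (MonoidAlgebra.single w 1)) = mg w :=
  toJ_single w

/-- the image of the component of multidegree `α` -/
noncomputable def Im (k : Type*) [Field k] (α : Fin 3 →₀ ℕ) : Submodule k (FA k) :=
  Submodule.span k {x | ∃ w : FreeMagma (Fin 3), content w = α ∧ x = mg w}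

theorem map_qmcomp (α : Fin 3 →₀ ℕ) :
    Submodule.map jm (qmcomp (jordRel k 3) α) = Im k α := by
  rw [qmcomp, Im, Submodule.map_span]
  congr 1
  ext x
  constructor
  · rintro ⟨y, ⟨w, hw, rfl⟩, rfl⟩
    exact ⟨w, hw, jm_single w⟩
  · rintro ⟨w, hw, rfl⟩
    exact ⟨_, ⟨w, hw, rfl⟩, jm_single w⟩

theorem Im_mul {α β : Fin 3 →₀ ℕ} {x y : FA k} (hx : x ∈ Im k α) (hy : y ∈ Im k β) :
    x * y + y * x ∈ Im k (α + β) := by
  induction hx using Submodule.span_induction with
  | zero => simp
  | add u v _ _ hu hv =>
    have : (u + v) * y + y * (u + v) = (u * y + y * u) + (v * y + y * v) := by noncomm_ring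
    rw [this]
    exact add_mem hu hv
  | smul c u _ hu =>
    have : (c • u) * y + y * (c • u) = c • (u * y + y * u) := by
      rw [smul_mul_assoc, mul_smul_comm, smul_add]
    rw [this]
    exact Submodule.smul_mem _ c hu
  | mem u hu =>
    obtain ⟨w, hw, rfl⟩ := hu
    induction hy using Submodule.span_induction with
    | zero => simp
    | add u v _ _ hu hv =>
      have : mg w * (u + v) + (u + v) * mg w = (mg w * u + u * mg w) + (mg w * v + v * mg w) := by
        noncomm_ring
      rw [this]
      exact add_mem hu hv
    | smul c u _ hu =>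
      have : mg w * (c • u) + (c • u) * mg w = c • (mg w * u + u * mg w) := by
        rw [smul_mul_assoc, mul_smul_comm, smul_add]
      rw [this]
      exact Submodule.smul_mem _ c hu
    | mem u hu =>
      obtain ⟨v, hv, rfl⟩ := hu
      apply Submodule.subset_span
      refine ⟨.mul w v, ?_, rfl⟩
      rw [content, hw, hv]

/-- the content of a word -/
noncomputable def cl (l : List (Fin 3)) : Fin 3 →₀ ℕ :=
  (l.map fun i => (Finsupp.single i 1 : Fin 3 →₀ ℕ)).sum

theorem cl_cons (x : Fin 3) (l : List (Fin 3)) : cl (x :: l) = Finsupp.single x 1 + cl l := by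
  simp [cl]

theorem cl_append (u v : List (Fin 3)) : cl (u ++ v) = cl u + cl v := by
  simp [cl]

theorem cl_perm {u v : List (Fin 3)} (h : u.Perm v) : cl u = cl v :=
  (h.map _).sum_eq

/-- a word -/
noncomputable def W (k : Type*) [Field k] (l : List (Fin 3)) : FA k :=
  MonoidAlgebra.single (FreeMonoid.ofList l) 1

theorem W_mul (u v : List (Fin 3)) : W k u * W k v = W k (u ++ v) := by
  rw [W, W, W, MonoidAlgebra.single_mul_single, one_mul, FreeMonoid.ofList_append]

/-- symmetrised word -/
noncomputable def T (k : Type*) [Field k] (l : List (Fin 3)) : FA k := W k l + W k l.reverse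

theorem W_letter (x : Fin 3) : W k [x] ∈ Im k (cl [x]) := by
  apply Submodule.subset_span
  refine ⟨.of x, ?_, rfl⟩
  simp [content, cl]

theorem T_two (x y : Fin 3) : T k [x, y] = W k [x] * W k [y] + W k [y] * W k [x] := by
  rw [T, W_mul, W_mul]
  rfl

theorem T_letter (x : Fin 3) : T k [x] = W k [x] + W k [x] := rfl

theorem mem_one (x : Fin 3) : T k [x] ∈ Im k (cl [x]) := by
  rw [T_letter]
  exact add_mem (W_letter x) (W_letter x)

theorem mem_two (x y : Fin 3) : T k [x, y] ∈ Im k (cl [x, y]) := by
  rw [T_two]
  have := Im_mul (W_letter (k := k) x) (W_letter (k := k) y)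
  rwa [← cl_append] at this

theorem letter_T (x : Fin 3) (w : List (Fin 3)) :
    W k [x] * T k w + T k w * W k [x] = T k (x :: w) + T k (w ++ [x]) := by
  simp only [T, mul_add, add_mul, W_mul, List.reverse_cons, List.reverse_append,
    List.singleton_append, List.reverse_nil, List.nil_append]
  abel

theorem two_T (x y : Fin 3) (w : List (Fin 3)) :
    T k [x, y] * T k w + T k w * T k [x, y] =
      T k (x :: y :: w) + T k (y :: x :: w) + (T k (w ++ [x, y]) + T k (w ++ [y, x])) := by
  simp only [T, mul_add, add_mul, W_mul, List.reverse_cons, List.reverse_append,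
    List.cons_append, List.reverse_nil, List.nil_append, List.append_assoc]
  abel

theorem mem_rot {x : Fin 3} {w : List (Fin 3)} (hw : T k w ∈ Im k (cl w)) :
    T k (x :: w) + T k (w ++ [x]) ∈ Im k (cl (x :: w)) := by
  rw [← letter_T]
  have := Im_mul (W_letter (k := k) x) hw
  rwa [← cl_append] at this

variable [CharZero k]

theorem half_mem {α : Fin 3 →₀ ℕ} {x : FA k} (h : x + x ∈ Im k α) : x ∈ Im k α := by
  have h2 : (2 : k) • x ∈ Im k α := by rwa [two_smul]
  have := Submodule.smul_mem _ (2 : k)⁻¹ h2
  rwa [smul_smul, inv_mul_cancel₀ two_ne_zero, one_smul] at this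

theorem mem_three (x y z : Fin 3) : T k [x, y, z] ∈ Im k (cl [x, y, z]) := by
  apply half_mem
  have h1 := Im_mul (mem_two (k := k) x y) (W_letter (k := k) z)
  have h2 := Im_mul (mem_two (k := k) y z) (W_letter (k := k) x)
  have h3 := Im_mul (mem_two (k := k) x z) (W_letter (k := k) y)
  have e1 : cl [x, y] + cl [z] = cl [x, y, z] := by rw [← cl_append]; rfl
  have e2 : cl [y, z] + cl [x] = cl [x, y, z] := by
    rw [← cl_append]
    exact cl_perm (List.perm_append_comm (l₁ := [y, z]) (l₂ := [x]))
  have e3 : cl [x, z] + cl [y] = cl [x, y, z] := by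
    rw [← cl_append]
    exact cl_perm ((List.perm_append_comm (l₁ := [z]) (l₂ := [y])).cons x)
  rw [e1] at h1
  rw [e2] at h2
  rw [e3] at h3
  have h := sub_mem (add_mem h1 h2) h3
  convert h using 1
  simp only [T, mul_add, add_mul, W_mul, List.reverse_cons, List.cons_append, List.reverse_nil,
    List.nil_append]
  abel

/-- congruence up to sign -/
def E (k : Type*) [Field k] (l l' : List (Fin 3)) : Prop :=
  cl l = cl l' ∧ (T k l - T k l' ∈ Im k (cl l) ∨ T k l + T k l' ∈ Im k (cl l))

omit [CharZero k] in
theorem E_refl (l : List (Fin 3)) : E k l l := ⟨rfl, Or.inl (by rw [sub_self]; exact zero_mem _)⟩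

omit [CharZero k] in
theorem E_trans {a b c : List (Fin 3)} (h1 : E k a b) (h2 : E k b c) : E k a c := by
  obtain ⟨e1, h1⟩ := h1
  obtain ⟨e2, h2⟩ := h2
  rw [← e1] at h2
  refine ⟨e1.trans e2, ?_⟩
  rcases h1 with h1 | h1 <;> rcases h2 with h2 | h2
  · left
    have := add_mem h1 h2
    rwa [sub_add_sub_cancel] at this
  · right
    have := add_mem h1 h2
    have e : T k a - T k b + (T k b + T k c) = T k a + T k c := by abel
    rwa [e] at this
  · right
    have := sub_mem h1 h2
    have e : T k a + T k b - (T k b - T k c) = T k a + T k c := by abel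
    rwa [e] at this
  · left
    have := sub_mem h1 h2
    have e : T k a + T k b - (T k b + T k c) = T k a - T k c := by abel
    rwa [e] at this

omit [CharZero k] in
theorem E_symm {a b : List (Fin 3)} (h1 : E k a b) : E k b a := by
  obtain ⟨e1, h1⟩ := h1
  refine ⟨e1.symm, ?_⟩
  rw [← e1]
  rcases h1 with h1 | h1
  · left
    have := neg_mem h1
    rwa [neg_sub] at this
  · right
    rwa [add_comm]

section step

variable {n : ℕ} (IH : ∀ m, 1 ≤ m → m < n → ∀ l : List (Fin 3), l.length = m →
  T k l ∈ Im k (cl l))

include IH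

omit [CharZero k] in
theorem rot1 {x : Fin 3} {w : List (Fin 3)} (h1 : 1 ≤ w.length) (h : w.length + 1 = n) :
    T k (x :: w) + T k (w ++ [x]) ∈ Im k (cl (x :: w)) :=
  mem_rot (IH w.length h1 (by omega) w rfl)

theorem swap1 {x y : Fin 3} {w : List (Fin 3)} (h1 : 1 ≤ w.length) (h : w.length + 2 = n) :
    T k (x :: y :: w) + T k (y :: x :: w) ∈ Im k (cl (x :: y :: w)) := by
  have ha := Im_mul (mem_two (k := k) x y) (IH w.length h1 (by omega) w rfl)
  rw [← cl_append, two_T] at ha
  have hc : ∀ l : List (Fin 3), l.Perm (x :: y :: w) → cl l = cl (x :: y :: w) := fun l hl =>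
    cl_perm hl
  have p1 : T k (y :: (w ++ [x])) + T k ((w ++ [x]) ++ [y]) ∈ Im k (cl (x :: y :: w)) := by
    have := rot1 IH (x := y) (w := w ++ [x]) (by simp) (by simp; omega)
    rwa [hc (y :: (w ++ [x]))] at this
    exact ((List.perm_append_comm (l₁ := w) (l₂ := [x])).cons y).trans (List.Perm.swap _ _ _)
  have p2 : T k (x :: (y :: w)) + T k ((y :: w) ++ [x]) ∈ Im k (cl (x :: y :: w)) :=
    rot1 IH (x := x) (w := y :: w) (by simp) (by simp; omega)
  have p3 : T k (x :: (w ++ [y])) + T k ((w ++ [y]) ++ [x]) ∈ Im k (cl (x :: y :: w)) := by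
    have := rot1 IH (x := x) (w := w ++ [y]) (by simp) (by simp; omega)
    rwa [hc (x :: (w ++ [y]))] at this
    exact ((List.perm_append_comm (l₁ := w) (l₂ := [y])).cons x)
  have p4 : T k (y :: (x :: w)) + T k ((x :: w) ++ [y]) ∈ Im k (cl (x :: y :: w)) := by
    have := rot1 IH (x := y) (w := x :: w) (by simp) (by simp; omega)
    rwa [hc (y :: (x :: w)) (List.Perm.swap _ _ _)] at this
  apply half_mem
  have ha' : T k (x :: y :: w) + T k (y :: x :: w) + (T k (w ++ [x, y]) + T k (w ++ [y, x])) ∈
      Im k (cl (x :: y :: w)) := ha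
  have q := sub_mem (add_mem (add_mem ha' p2) p4) (add_mem p1 p3)
  rw [List.append_assoc, List.append_assoc, List.cons_append, List.cons_append,
    List.cons_append, List.nil_append, List.cons_append, List.nil_append] at q
  have e : T k (x :: y :: w) + T k (y :: x :: w) + (T k (w ++ [x, y]) + T k (w ++ [y, x])) +
          (T k (x :: y :: w) + T k (y :: (w ++ [x]))) +
        (T k (y :: x :: w) + T k (x :: (w ++ [y]))) -
      (T k (y :: (w ++ [x])) + T k (w ++ [x, y]) + (T k (x :: (w ++ [y])) + T k (w ++ [y, x]))) =
      T k (x :: y :: w) + T k (y :: x :: w) + (T k (x :: y :: w) + T k (y :: x :: w)) := by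
    abel
  rwa [e] at q

omit [CharZero k] in
theorem E_rot1 {x : Fin 3} {w : List (Fin 3)} (h1 : 1 ≤ w.length) (h : w.length + 1 = n) :
    E k (x :: w) (w ++ [x]) :=
  ⟨cl_perm (List.perm_append_comm (l₁ := [x]) (l₂ := w)), Or.inr (rot1 IH h1 h)⟩

theorem E_swap1 {x y : Fin 3} {w : List (Fin 3)} (h1 : 1 ≤ w.length) (h : w.length + 2 = n) :
    E k (x :: y :: w) (y :: x :: w) :=
  ⟨cl_perm (List.Perm.swap _ _ _), Or.inr (swap1 IH h1 h)⟩

omit [CharZero k] in
theorem E_rot (hn : 2 ≤ n) : ∀ (u r : List (Fin 3)), u.length + r.length = n →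
    E k (u ++ r) (r ++ u) := by
  intro u
  induction u with
  | nil => intro r _; rw [List.nil_append, List.append_nil]; exact E_refl r
  | cons x u ih =>
    intro r h
    have h' : u.length + 1 + r.length = n := h
    have s1 : E k (x :: (u ++ r)) ((u ++ r) ++ [x]) :=
      E_rot1 IH (by rw [List.length_append]; omega) (by rw [List.length_append]; omega)
    have s2 : E k (u ++ (r ++ [x])) ((r ++ [x]) ++ u) :=
      ih (r ++ [x]) (by rw [List.length_append, List.length_singleton]; omega)
    rw [List.append_assoc] at s1 s2
    exact E_trans s1 s2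

theorem E_perm (hn : 3 ≤ n) {l l' : List (Fin 3)} (hp : l.Perm l') :
    ∀ u v : List (Fin 3), u.length + l.length + v.length = n →
      E k (u ++ l ++ v) (u ++ l' ++ v) := by
  induction hp with
  | nil => intro u v _; exact E_refl _
  | cons x _ ih =>
    intro u v h
    have := ih (u ++ [x]) v (by simp at h ⊢; omega)
    simpa using this
  | swap x y l =>
    intro u v h
    simp only [List.length_cons] at h
    have s1 : E k (u ++ ((y :: x :: l) ++ v)) (((y :: x :: l) ++ v) ++ u) :=
      E_rot IH (by omega) _ _ (by simp; omega)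
    have s2 : E k (u ++ ((x :: y :: l) ++ v)) (((x :: y :: l) ++ v) ++ u) :=
      E_rot IH (by omega) _ _ (by simp; omega)
    have s3 : E k (y :: x :: (l ++ v ++ u)) (x :: y :: (l ++ v ++ u)) :=
      E_swap1 IH (by simp; omega) (by simp; omega)
    have := E_trans (E_trans s1 (by simpa using s3)) (E_symm s2)
    simpa using this
  | trans h1 h2 ih1 ih2 =>
    intro u v h
    exact E_trans (ih1 u v h) (ih2 u v (by rw [← h1.length_eq]; exact h))

end step

theorem cohn (l : List (Fin 3)) (hl : 1 ≤ l.length) : T k l ∈ Im k (cl l) := by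
  suffices H : ∀ n, 1 ≤ n → ∀ l : List (Fin 3), l.length = n → T k l ∈ Im k (cl l) from
    H _ hl l rfl
  intro n
  induction n using Nat.strong_induction_on with
  | _ n IH =>
    intro hn l hl
    have IH' : ∀ m, 1 ≤ m → m < n → ∀ l : List (Fin 3), l.length = m → T k l ∈ Im k (cl l) :=
      fun m h1 h2 => IH m h2 h1
    by_cases h4 : 4 ≤ n
    · have hnd : ¬ l.Nodup := by
        intro h
        have := h.length_le_card
        rw [Fintype.card_fin] at this
        omega
      obtain ⟨x, hx⟩ := List.exists_duplicate_iff_not_nodup.mpr hnd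
      rw [List.duplicate_iff_sublist] at hx
      obtain ⟨l', hl'⟩ := hx.exists_perm_append
      have hE := E_perm IH' (by omega) hl' [] [] (by simpa using hl)
      simp only [List.nil_append, List.append_nil] at hE
      have hlen := hl'.length_eq
      rw [hl, List.length_append] at hlen
      simp only [List.length_cons, List.length_nil] at hlen
      have hs := swap1 IH' (x := x) (y := x) (w := l') (by omega) (by omega)
      have hs' := half_mem hs
      obtain ⟨e, hE⟩ := hE
      have e' : cl l = cl (x :: x :: l') := e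
      have hE' : T k l - T k (x :: x :: l') ∈ Im k (cl l) ∨
        T k l + T k (x :: x :: l') ∈ Im k (cl l) := hE
      rw [← e'] at hs'
      rcases hE' with h | h
      · have := add_mem h hs'
        rwa [sub_add_cancel] at this
      · have := sub_mem h hs'
        rwa [add_sub_cancel_right] at this
    · match l, hl with
      | [], h => simp at h; omega
      | [x], _ => exact mem_one x
      | [x, y], _ => exact mem_two x y
      | [x, y, z], _ => exact mem_three x y z
      | (_ :: _ :: _ :: _ :: _), h => simp at h; omega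

end Pool.Agent.Y417.KM
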