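import Pool.Agent.Y417.KM.Cohn

set_option autoImplicit false

open scoped BigOperators

/-! Dimension of the free Jordan algebra on three generators. -/

namespace Pool.Agent.Y417.KM

open Pool.Agent.Y80.KM

section finite

variable {d : ℕ}

theorem finite_length (n : ℕ) : {w : FreeMagma (Fin d) | w.length ≤ n}.Finite := by
  induction n with
  | zero =>
    convert Set.finite_empty
    ext w
    simp only [Set.mem_ofPred_eq, Set.mem_empty_iff_false, iff_false]
    have := w.length_pos
    omega
  | succ n ih =>
    refine ((Set.finite_range (FreeMagma.of : Fin d → FreeMagma (Fin d))).union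
      (Set.Finite.image2 FreeMagma.mul ih ih)).subset ?_
    intro w hw
    cases w with
    | of i => exact Or.inl ⟨i, rfl⟩
    | mul x y =>
      have hw' : x.length + y.length ≤ n + 1 := hw
      have h1 := x.length_pos
      have h2 := y.length_pos
      refine Or.inr ⟨x, ?_, y, ?_, rfl⟩
      · change x.length ≤ n; omega
      · change y.length ≤ n; omega

theorem sum_content (w : FreeMagma (Fin d)) : ∑ i, content w i = w.length := by
  induction w with
  | ih1 i => simp [content, Finsupp.single_apply, FreeMagma.length]
  | ih2 x y hx hy =>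
    change ∑ i, (content x + content y) i = x.length + y.length
    rw [← hx, ← hy, ← Finset.sum_add_distrib]
    rfl

variable {k : Type*} [Field k] (R : Set (NF k d))

theorem span_finite (s : Set (FreeMagma (Fin d))) (hs : s.Finite) :
    FiniteDimensional k (Submodule.span k {x | ∃ w : FreeMagma (Fin d), w ∈ s ∧
      x = qmk R (MonoidAlgebra.single w 1)}) := by
  have h : {x | ∃ w : FreeMagma (Fin d), w ∈ s ∧ x = qmk R (MonoidAlgebra.single w 1)} =
      (fun w => qmk R (MonoidAlgebra.single w 1 : NF k d)) '' s := by
    ext x
    constructor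
    · rintro ⟨w, hw, rfl⟩
      exact ⟨w, hw, rfl⟩
    · rintro ⟨w, hw, rfl⟩
      exact ⟨w, hw, rfl⟩
  rw [h]
  exact FiniteDimensional.span_of_finite k (hs.image _)

theorem qcomp_finite (n : ℕ) : FiniteDimensional k (qcomp R n) :=
  span_finite R {w | w.length = n} ((finite_length n).subset fun _ h => le_of_eq h)

theorem qmcomp_finite (α : Fin d →₀ ℕ) : FiniteDimensional k (qmcomp R α) := by
  refine span_finite R {w | content w = α} ((finite_length (∑ i, α i)).subset ?_)
  intro w hw
  have hw' : content w = α := hw
  change w.length ≤ _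
  rw [← sum_content, hw']

end finite

variable {k : Type*} [Field k]

/-- coefficient -/
noncomputable def cf (v : List (Fin 3)) : FA k →ₗ[k] k :=
  (Finsupp.lapply (FreeMonoid.ofList v)).comp
    (MonoidAlgebra.coeffLinearEquiv (S := k) (M := FreeMonoid (Fin 3)) k).toLinearMap

theorem cf_W (v l : List (Fin 3)) : cf v (W k l) = if l = v then 1 else 0 := by
  have : cf v (W k l) = (Finsupp.single (FreeMonoid.ofList l) (1 : k)) (FreeMonoid.ofList v) := rfl
  rw [this]
  by_cases h : l = v
  · subst h
    rw [Finsupp.single_eq_same, if_pos rfl]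
  · rw [if_neg h, Finsupp.single_eq_of_ne]
    intro e
    exact h (FreeMonoid.ofList.injective e).symm

theorem cf_T (v l : List (Fin 3)) :
    cf v (T k l) = (if l = v then 1 else 0) + (if l.reverse = v then 1 else 0) := by
  rw [T, map_add, cf_W, cf_W]

theorem card_le [CharZero k] (V : Submodule k (FreeJord k 3)) [FiniteDimensional k V]
    (S : Finset (List (Fin 3))) (hS : ∀ l ∈ S, l.reverse ∈ S)
    (hT : ∀ l ∈ S, T k l ∈ Submodule.map jm V) : S.card ≤ 2 * Module.finrank k V := by
  classical
  let R := S.filter fun l => l ≤ l.reverse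
  have hR : S.card ≤ 2 * R.card := by
    have h1 : S ⊆ R ∪ R.image List.reverse := by
      intro l hl
      rw [Finset.mem_union]
      rcases le_total l l.reverse with h | h
      · exact Or.inl (Finset.mem_filter.mpr ⟨hl, h⟩)
      · right
        rw [Finset.mem_image]
        refine ⟨l.reverse, Finset.mem_filter.mpr ⟨hS l hl, ?_⟩, List.reverse_reverse l⟩
        rwa [List.reverse_reverse]
    calc S.card ≤ (R ∪ R.image List.reverse).card := Finset.card_le_card h1
      _ ≤ R.card + (R.image List.reverse).card := Finset.card_union_le _ _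
      _ ≤ R.card + R.card := Nat.add_le_add_left Finset.card_image_le _
      _ = 2 * R.card := by ring
  have hex : ∀ l : R, ∃ x : V, jm (x : FreeJord k 3) = T k l.1 := by
    intro l
    obtain ⟨x, hx, he⟩ := hT l.1 (Finset.mem_filter.mp l.2).1
    exact ⟨⟨x, hx⟩, he⟩
  choose v hv using hex
  have hli : LinearIndependent k v := by
    apply LinearIndependent.of_comp (jm.comp (Submodule.subtype V))
    rw [Fintype.linearIndependent_iff]
    intro g hg u
    have hg' := congrArg (cf (k := k) u.1) hg
    rw [map_sum, map_zero] at hg'
    have key : ∀ l : R, cf u.1 (g l • ((jm.comp (Submodule.subtype V)) ∘ v) l) =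
        if l = u then g u * (1 + (if u.1.reverse = u.1 then 1 else 0)) else 0 := by
      intro l
      rw [map_smul, Function.comp_apply, LinearMap.comp_apply, Submodule.subtype_apply, hv, cf_T,
        smul_eq_mul]
      by_cases h : l = u
      · subst h
        simp
      · have h' : l.1 ≠ u.1 := fun e => h (Subtype.ext e)
        rw [if_neg h, if_neg h', if_neg, add_zero, mul_zero]
        intro e
        apply h'
        have hl := (Finset.mem_filter.mp l.2).2
        have hu := (Finset.mem_filter.mp u.2).2
        rw [e] at hl
        rw [← e, List.reverse_reverse] at hu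
        rw [e] at hu
        exact le_antisymm hl hu
    rw [Finset.sum_congr rfl fun l _ => key l, Finset.sum_ite_eq' Finset.univ u] at hg'
    simp only [Finset.mem_univ, if_true] at hg'
    rcases mul_eq_zero.mp hg' with h | h
    · exact h
    · exfalso
      split_ifs at h
      · norm_num at h
      · norm_num at h
  have := hli.fintype_card_le_finrank
  rw [Fintype.card_coe] at this
  omega

/-- the words of length `n` -/
def words (n : ℕ) : Finset (List (Fin 3)) :=
  (Finset.univ : Finset (Fin n → Fin 3)).image fun f => List.ofFn f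

theorem mem_words {n : ℕ} {l : List (Fin 3)} : l ∈ words n ↔ l.length = n := by
  rw [words, Finset.mem_image]
  constructor
  · rintro ⟨f, _, rfl⟩
    exact List.length_ofFn
  · intro h
    subst h
    exact ⟨fun i => l[i], Finset.mem_univ _, List.ofFn_getElem⟩

theorem card_words (n : ℕ) : (words n).card = 3 ^ n := by
  rw [words, Finset.card_image_of_injective _ List.ofFn_injective]
  simp

theorem sum_cl (l : List (Fin 3)) : ∑ i, cl l i = l.length := by
  induction l with
  | nil => simp [cl]
  | cons x l ih =>
    rw [cl_cons, List.length_cons, ← ih]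
    simp only [Finsupp.add_apply, Finset.sum_add_distrib]
    have : ∑ i, (Finsupp.single x 1 : Fin 3 →₀ ℕ) i = 1 := by
      simp [Finsupp.single_apply]
    rw [this, add_comm]

theorem cl_reverse (l : List (Fin 3)) : cl l.reverse = cl l := cl_perm (List.reverse_perm l)

theorem Im_le (α : Fin 3 →₀ ℕ) :
    Im k α ≤ Submodule.map jm (qcomp (jordRel k 3) (∑ i, α i)) := by
  rw [← map_qmcomp]
  apply Submodule.map_mono
  apply Submodule.span_mono
  rintro x ⟨w, hw, rfl⟩
  refine ⟨w, ?_, rfl⟩
  rw [← sum_content, hw]

theorem cohn_total (k : Type*) [Field k] [CharZero k] (n : ℕ) (hn : 1 ≤ n) :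
    3 ^ n ≤ 2 * Module.finrank k (qcomp (jordRel k 3) n) := by
  have := qcomp_finite (jordRel k 3) n
  rw [← card_words]
  apply card_le
  · intro l hl
    rw [mem_words] at hl ⊢
    rw [List.length_reverse, hl]
  · intro l hl
    rw [mem_words] at hl
    have h1 := cohn (k := k) l (by omega)
    have h2 := Im_le _ h1
    rwa [sum_cl, hl] at h2

theorem cohn_multi (k : Type*) [Field k] [CharZero k] (n : ℕ) (hn : 1 ≤ n) :
    3 ^ n ≤ 2 * ∑ α ∈ Finset.finsuppAntidiag (Finset.univ : Finset (Fin 3)) n,
      Module.finrank k (qmcomp (jordRel k 3) α) := by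
  classical
  have h0 : ∀ l ∈ words n, cl l ∈ Finset.finsuppAntidiag (Finset.univ : Finset (Fin 3)) n := by
    intro l hl
    rw [Finset.mem_finsuppAntidiag]
    refine ⟨?_, Finset.subset_univ _⟩
    rw [mem_words] at hl
    rw [sum_cl, hl]
  rw [← card_words, Finset.card_eq_sum_card_fiberwise h0, Finset.mul_sum]
  apply Finset.sum_le_sum
  intro α _
  have := qmcomp_finite (jordRel k 3) α
  apply card_le
  · intro l hl
    rw [Finset.mem_filter, mem_words] at hl ⊢
    rw [List.length_reverse, cl_reverse]
    exact hl
  · intro l hl
    rw [Finset.mem_filter, mem_words] at hl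
    have h1 := cohn (k := k) l (by omega)
    rw [map_qmcomp]
    rwa [hl.2] at h1

end Pool.Agent.Y417.KM
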